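import Mathlib
import Pool.Agent.Helper993.DeltaDef

/-!
# Torsion classes and dual cocycles in finite based complexes (helper42)
-/

set_option autoImplicit false

noncomputable section

namespace Pool.Agent.V8H42.LT

open Module Matrix Pool.Agent.Helper993.Delta

/-- abstract lower bound for the torsion -/
theorem abs_fam {M S : Type} [AddCommGroup M] [Module.Finite ℤ M] [Fintype S] [DecidableEq S] (p : ℕ)
    [hp : Fact p.Prime] (Z B : Submodule ℤ M) (w : S → M) (hw : ∀ s, w s ∈ Z)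
    (ht : ∀ s, ∃ c : ℤ, c ≠ 0 ∧ c • w s ∈ B) (φ : S → M →+ ZMod p) (hφ : ∀ s, ∀ b ∈ B, φ s b = 0)
    (hd : ∀ s t, φ t (w s) = if s = t then 1 else 0) : p ^ Fintype.card S ≤ torsionCard Z B := by
  unfold torsionCard
  have hfin : Finite (Submodule.torsion ℤ (Z ⧸ B.submoduleOf Z)) :=
    Module.finite_of_fg_torsion _ (Submodule.torsion_isTorsion)
  have hx : ∀ c : S → ZMod p, (∑ s, ((c s).val : ℤ) • w s) ∈ Z := fun c =>
    Submodule.sum_mem _ fun s _ => Submodule.smul_mem _ _ (hw s)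
  have hy : ∀ c : S → ZMod p, (Submodule.Quotient.mk ⟨_, hx c⟩ : Z ⧸ B.submoduleOf Z) ∈
      Submodule.torsion ℤ (Z ⧸ B.submoduleOf Z) := by
    intro c
    choose k hk0 hk using ht
    rw [Submodule.mem_torsion_iff]
    refine ⟨⟨∏ s, k s, ?_⟩, ?_⟩
    · rw [mem_nonZeroDivisors_iff_ne_zero]
      exact Finset.prod_ne_zero_iff.2 fun s _ => hk0 s
    · show (∏ s, k s : ℤ) • (Submodule.Quotient.mk ⟨_, hx c⟩ : Z ⧸ B.submoduleOf Z) = 0
      rw [← Submodule.Quotient.mk_smul, Submodule.Quotient.mk_eq_zero]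
      show (∏ s, k s : ℤ) • (∑ s, ((c s).val : ℤ) • w s) ∈ B
      rw [Finset.smul_sum]
      refine Submodule.sum_mem _ fun s _ => ?_
      rw [← Finset.mul_prod_erase Finset.univ k (Finset.mem_univ s), smul_smul, mul_comm (k s), mul_assoc,
        mul_comm (k s), ← mul_assoc, ← smul_smul]
      exact Submodule.smul_mem _ _ (hk s)
  have hinj : Function.Injective (fun c : S → ZMod p =>
      (⟨_, hy c⟩ : Submodule.torsion ℤ (Z ⧸ B.submoduleOf Z))) := by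
    intro c c' h
    have h1 := congrArg Subtype.val h
    change (Submodule.Quotient.mk ⟨_, hx c⟩ : Z ⧸ B.submoduleOf Z) = Submodule.Quotient.mk ⟨_, hx c'⟩ at h1
    rw [Submodule.Quotient.eq] at h1
    change (∑ s, ((c s).val : ℤ) • w s) - (∑ s, ((c' s).val : ℤ) • w s) ∈ B at h1
    funext t
    have h2 := hφ t _ h1
    rw [map_sub, map_sum, map_sum] at h2
    have h3 : ∀ c : S → ZMod p, ∑ s, φ t (((c s).val : ℤ) • w s) = c t := by
      intro c
      have h4 : ∀ s, φ t (((c s).val : ℤ) • w s) = if s = t then c s else 0 := by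
        intro s
        rw [map_zsmul, hd]
        split_ifs with hs
        · rw [zsmul_eq_mul, mul_one, Int.cast_natCast, ZMod.natCast_zmod_val]
        · rw [smul_zero]
      rw [Finset.sum_congr rfl fun s _ => h4 s, Finset.sum_ite_eq' Finset.univ t c]
      simp
    rw [h3, h3, sub_eq_zero] at h2
    exact h2
  have h5 := Nat.card_le_card_of_injective _ hinj
  rwa [Nat.card_fun, Nat.card_zmod, Nat.card_eq_fintype_card] at h5

section plain

variable {I J : Type} [Fintype I] [DecidableEq I] [Fintype J] [DecidableEq J]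

/-- the boundary matrix of the product of two based complexes -/
def pm (deg : I → ℕ) (A : Matrix I I ℤ) (B : Matrix J J ℤ) : Matrix (I × J) (I × J) ℤ :=
  Matrix.of fun x y => (if x.2 = y.2 then A x.1 y.1 else 0) + (if x.1 = y.1 then (-1) ^ deg x.1 * B x.2 y.2 else 0)

/-- torsion classes `w s` of degree `n` and mod `p` cocycles `φ s`, dual to each other -/
structure Fam (p : ℕ) (deg : I → ℕ) (A : Matrix I I ℤ) (n : ℕ) (S : Type) [DecidableEq S] where
  w : S → I → ℤ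
  φ : S → I → ZMod p
  w_deg : ∀ s i, deg i ≠ n → w s i = 0
  w_cyc : ∀ s, w s ᵥ* A = 0
  w_tors : ∀ s, ∃ c : ℤ, c ≠ 0 ∧ ∃ u : I → ℤ, (∀ i, deg i ≠ n + 1 → u i = 0) ∧ u ᵥ* A = c • w s
  φ_deg : ∀ s i, deg i ≠ n → φ s i = 0
  φ_coc : ∀ s i, ∑ j, (A i j : ZMod p) * φ s j = 0
  dual : ∀ s t, ∑ i, (w s i : ZMod p) * φ t i = if s = t then 1 else 0

/-- pairs of chains `z s` of degree `n` and `q s` of degree `n + 1` such that the boundary of `q s` is a multiple of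
`z s`, divisible by `p`, with dual cocycles -/
structure Pairs (p : ℕ) (deg : I → ℕ) (A : Matrix I I ℤ) (n : ℕ) (S : Type) [DecidableEq S] where
  z : S → I → ℤ
  q : S → I → ℤ
  a : S → ℤ
  α : S → I → ZMod p
  β : S → I → ZMod p
  z_deg : ∀ s i, deg i ≠ n → z s i = 0
  z_cyc : ∀ s, z s ᵥ* A = 0
  q_deg : ∀ s i, deg i ≠ n + 1 → q s i = 0
  a_ne : ∀ s, a s ≠ 0
  a_p : ∀ s, (p : ℤ) ∣ a s
  bd : ∀ s, q s ᵥ* A = a s • z s
  α_deg : ∀ s i, deg i ≠ n → α s i = 0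
  α_coc : ∀ s i, ∑ j, (A i j : ZMod p) * α s j = 0
  α_dual : ∀ s t, ∑ i, (z s i : ZMod p) * α t i = if s = t then 1 else 0
  β_deg : ∀ s i, deg i ≠ n + 1 → β s i = 0
  β_coc : ∀ s i, ∑ j, (A i j : ZMod p) * β s j = 0
  β_dual : ∀ s t, ∑ i, (q s i : ZMod p) * β t i = if s = t then 1 else 0

theorem vecMul_pm (deg : I → ℕ) (A : Matrix I I ℤ) (B : Matrix J J ℤ) (u : I → ℤ) (v : J → ℤ) (y : I × J) :
    ((fun x : I × J => u x.1 * v x.2) ᵥ* pm deg A B) y =
      (u ᵥ* A) y.1 * v y.2 + (-1) ^ deg y.1 * u y.1 * (v ᵥ* B) y.2 := by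
  obtain ⟨k, l⟩ := y
  simp only [vecMul, dotProduct, pm, of_apply, Fintype.sum_prod_type, mul_add, mul_ite, mul_zero,
    Finset.sum_add_distrib]
  congr 1
  · simp only [Finset.sum_ite_eq', Finset.mem_univ, if_true, Finset.sum_mul]
    exact Finset.sum_congr rfl fun i _ => by ring
  · rw [Finset.sum_comm]
    simp only [Finset.sum_ite_eq', Finset.mem_univ, if_true, Finset.mul_sum]
    exact Finset.sum_congr rfl fun i _ => by ring

theorem pm_mulVec (p : ℕ) (deg : I → ℕ) (A : Matrix I I ℤ) (B : Matrix J J ℤ) (φ : I → ZMod p) (ψ : J → ZMod p)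
    (x : I × J) : ∑ y : I × J, ((pm deg A B x y : ℤ) : ZMod p) * (φ y.1 * ψ y.2) =
      (∑ j, (A x.1 j : ZMod p) * φ j) * ψ x.2 + (-1) ^ deg x.1 * φ x.1 * ∑ j, (B x.2 j : ZMod p) * ψ j := by
  obtain ⟨k, l⟩ := x
  simp only [pm, of_apply, Fintype.sum_prod_type, Int.cast_add, Int.cast_ite, Int.cast_zero, add_mul, ite_mul,
    zero_mul, Finset.sum_add_distrib]
  congr 1
  · simp only [Finset.sum_ite_eq, Finset.mem_univ, if_true, Finset.sum_mul]
    exact Finset.sum_congr rfl fun i _ => by ring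
  · rw [Finset.sum_comm]
    simp only [Finset.sum_ite_eq, Finset.mem_univ, if_true, Finset.mul_sum]
    exact Finset.sum_congr rfl fun i _ => by push_cast; ring

omit [DecidableEq I] [DecidableEq J] in
theorem sum_prod_mul {R : Type} [CommRing R] (u φ : I → R) (v ψ : J → R) :
    ∑ x : I × J, (u x.1 * v x.2) * (φ x.1 * ψ x.2) = (∑ i, u i * φ i) * ∑ j, v j * ψ j := by
  rw [Finset.sum_mul_sum, Fintype.sum_prod_type]
  exact Finset.sum_congr rfl fun i _ => Finset.sum_congr rfl fun j _ => by ring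

/-- the product of two families -/
def Fam.prod {p : ℕ} {degI : I → ℕ} {degJ : J → ℕ} {A : Matrix I I ℤ} {B : Matrix J J ℤ} {n m : ℕ} {S T : Type}
    [DecidableEq S] [DecidableEq T] (X : Fam p degI A n S) (Y : Fam p degJ B m T) :
    Fam p (fun x : I × J => degI x.1 + degJ x.2) (pm degI A B) (n + m) (S × T) where
  w s x := X.w s.1 x.1 * Y.w s.2 x.2
  φ s x := X.φ s.1 x.1 * Y.φ s.2 x.2
  w_deg s x h := by
    by_cases h1 : degI x.1 = n
    · rw [Y.w_deg s.2 x.2 (by omega), mul_zero]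
    · rw [X.w_deg s.1 x.1 h1, zero_mul]
  w_cyc s := by
    funext y
    rw [vecMul_pm, X.w_cyc, Y.w_cyc]
    simp
  w_tors s := by
    obtain ⟨c, hc, u, hu, h⟩ := X.w_tors s.1
    refine ⟨c, hc, fun x => u x.1 * Y.w s.2 x.2, fun x hx => ?_, ?_⟩
    · show u x.1 * Y.w s.2 x.2 = 0
      by_cases h1 : degI x.1 = n + 1
      · rw [Y.w_deg s.2 x.2 (by omega), mul_zero]
      · rw [hu x.1 h1, zero_mul]
    · funext y
      rw [vecMul_pm, h, Y.w_cyc]
      simp [mul_assoc]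
  φ_deg s x h := by
    by_cases h1 : degI x.1 = n
    · rw [Y.φ_deg s.2 x.2 (by omega), mul_zero]
    · rw [X.φ_deg s.1 x.1 h1, zero_mul]
  φ_coc s x := by
    rw [pm_mulVec, X.φ_coc, Y.φ_coc]
    simp
  dual s t := by
    have h := sum_prod_mul (fun i => (X.w s.1 i : ZMod p)) (X.φ t.1) (fun j => (Y.w s.2 j : ZMod p)) (Y.φ t.2)
    rw [X.dual, Y.dual] at h
    push_cast
    rw [h]
    by_cases h1 : s.1 = t.1
    · by_cases h2 : s.2 = t.2
      · simp [h1, h2, Prod.ext_iff]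
      · simp [h1, h2, Prod.ext_iff]
    · simp [h1, Prod.ext_iff]

/-- the family of the cycles `z s` -/
def Pairs.fam {p : ℕ} {degI : I → ℕ} {A : Matrix I I ℤ} {n : ℕ} {S : Type} [DecidableEq S]
    (X : Pairs p degI A n S) : Fam p degI A n S where
  w := X.z
  φ := X.α
  w_deg := X.z_deg
  w_cyc := X.z_cyc
  w_tors s := ⟨X.a s, X.a_ne s, X.q s, X.q_deg s, X.bd s⟩
  φ_deg := X.α_deg
  φ_coc := X.α_coc
  dual := X.α_dual

omit [DecidableEq I] in
theorem sum_deg_zero {R : Type} [CommRing R] (u φ : I → R) (deg : I → ℕ) (n m : ℕ) (h : n ≠ m)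
    (hu : ∀ i, deg i ≠ n → u i = 0) (hφ : ∀ i, deg i ≠ m → φ i = 0) : ∑ i, u i * φ i = 0 := by
  refine Finset.sum_eq_zero fun i _ => ?_
  by_cases h1 : deg i = n
  · rw [hφ i (by omega), mul_zero]
  · rw [hu i h1, zero_mul]

open Classical in
/-- the family of torsion classes of degree `n + m + 1` in the product -/
def Pairs.tor {p : ℕ} [Fact p.Prime] {degI : I → ℕ} {degJ : J → ℕ} {A : Matrix I I ℤ} {B : Matrix J J ℤ} {n m : ℕ}
    {S T : Type} [DecidableEq S] [DecidableEq T] (X : Pairs p degI A n S) (Y : Pairs p degJ B m T) :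
    Fam p (fun x : I × J => degI x.1 + degJ x.2) (pm degI A B) (n + m + 1) (S × T) where
  w s x := (X.a s.1 / Int.gcd (X.a s.1) (Y.a s.2)) * (X.z s.1 x.1 * Y.q s.2 x.2) +
    (-1) ^ (n + 1) * (Y.a s.2 / Int.gcd (X.a s.1) (Y.a s.2)) * (X.q s.1 x.1 * Y.z s.2 x.2)
  φ s x := if (p : ℤ) ∣ Y.a s.2 / Int.gcd (X.a s.1) (Y.a s.2) then
    (((X.a s.1 / Int.gcd (X.a s.1) (Y.a s.2) : ℤ) : ZMod p))⁻¹ * (X.α s.1 x.1 * Y.β s.2 x.2) else
    (-1) ^ (n + 1) * (((Y.a s.2 / Int.gcd (X.a s.1) (Y.a s.2) : ℤ) : ZMod p))⁻¹ * (X.β s.1 x.1 * Y.α s.2 x.2)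
  w_deg s x h := by
    have h1 : X.z s.1 x.1 * Y.q s.2 x.2 = 0 := by
      by_cases h1 : degI x.1 = n
      · rw [Y.q_deg s.2 x.2 (by omega), mul_zero]
      · rw [X.z_deg s.1 x.1 h1, zero_mul]
    have h2 : X.q s.1 x.1 * Y.z s.2 x.2 = 0 := by
      by_cases h1 : degI x.1 = n + 1
      · rw [Y.z_deg s.2 x.2 (by omega), mul_zero]
      · rw [X.q_deg s.1 x.1 h1, zero_mul]
    rw [h1, h2, mul_zero, mul_zero, add_zero]
  w_cyc s := by
    funext y
    obtain ⟨a', ha⟩ := Int.gcd_dvd_left (X.a s.1) (Y.a s.2)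
    obtain ⟨b', hb⟩ := Int.gcd_dvd_right (X.a s.1) (Y.a s.2)
    obtain ⟨g, hg⟩ : ∃ g : ℤ, g = Int.gcd (X.a s.1) (Y.a s.2) := ⟨_, rfl⟩
    rw [← hg] at ha hb ⊢
    have hg0 : g ≠ 0 := fun h => X.a_ne s.1 (by rw [ha, h, zero_mul])
    have ea : X.a s.1 / g = a' := by rw [ha, Int.mul_ediv_cancel_left _ hg0]
    have eb : Y.a s.2 / g = b' := by rw [hb, Int.mul_ediv_cancel_left _ hg0]
    rw [ea, eb]
    have h1 : (fun x : I × J => a' * (X.z s.1 x.1 * Y.q s.2 x.2) + (-1) ^ (n + 1) * b' * (X.q s.1 x.1 * Y.z s.2 x.2)) =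
      a' • (fun x : I × J => X.z s.1 x.1 * Y.q s.2 x.2) +
        ((-1) ^ (n + 1) * b') • (fun x : I × J => X.q s.1 x.1 * Y.z s.2 x.2) := by
      funext x
      simp
    rw [h1, add_vecMul, smul_vecMul, smul_vecMul, Pi.add_apply, Pi.smul_apply, Pi.smul_apply, vecMul_pm, vecMul_pm,
      X.z_cyc, Y.z_cyc, X.bd, Y.bd]
    simp only [Pi.zero_apply, Pi.smul_apply, smul_eq_mul, zero_mul, zero_add, mul_zero, add_zero]
    by_cases hy : degI y.1 = n
    · rw [hy, ha, hb]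
      ring
    · rw [X.z_deg s.1 y.1 hy]
      ring
  w_tors s := by
    obtain ⟨a', ha⟩ := Int.gcd_dvd_left (X.a s.1) (Y.a s.2)
    obtain ⟨b', hb⟩ := Int.gcd_dvd_right (X.a s.1) (Y.a s.2)
    obtain ⟨g, hg⟩ : ∃ g : ℤ, g = Int.gcd (X.a s.1) (Y.a s.2) := ⟨_, rfl⟩
    rw [← hg] at ha hb ⊢
    have hg0 : g ≠ 0 := fun h => X.a_ne s.1 (by rw [ha, h, zero_mul])
    have ea : X.a s.1 / g = a' := by rw [ha, Int.mul_ediv_cancel_left _ hg0]
    have eb : Y.a s.2 / g = b' := by rw [hb, Int.mul_ediv_cancel_left _ hg0]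
    rw [ea, eb]
    refine ⟨g, hg0, fun x => X.q s.1 x.1 * Y.q s.2 x.2, fun x hx => ?_, ?_⟩
    · show X.q s.1 x.1 * Y.q s.2 x.2 = 0
      by_cases h1 : degI x.1 = n + 1
      · rw [Y.q_deg s.2 x.2 (by omega), mul_zero]
      · rw [X.q_deg s.1 x.1 h1, zero_mul]
    · funext y
      rw [vecMul_pm, X.bd, Y.bd]
      simp only [Pi.smul_apply, smul_eq_mul]
      by_cases hy : degI y.1 = n + 1
      · rw [hy, ha, hb]
        ring
      · rw [X.q_deg s.1 y.1 hy, ha]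
        ring
  φ_deg s x h := by
    have h1 : X.α s.1 x.1 * Y.β s.2 x.2 = 0 := by
      by_cases h1 : degI x.1 = n
      · rw [Y.β_deg s.2 x.2 (by omega), mul_zero]
      · rw [X.α_deg s.1 x.1 h1, zero_mul]
    have h2 : X.β s.1 x.1 * Y.α s.2 x.2 = 0 := by
      by_cases h1 : degI x.1 = n + 1
      · rw [Y.α_deg s.2 x.2 (by omega), mul_zero]
      · rw [X.β_deg s.1 x.1 h1, zero_mul]
    rw [h1, h2, mul_zero, mul_zero, ite_self]
  φ_coc s x := by
    by_cases hc : (p : ℤ) ∣ Y.a s.2 / Int.gcd (X.a s.1) (Y.a s.2)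
    · simp only [if_pos hc]
      obtain ⟨c, hc'⟩ : ∃ c, c = (((X.a s.1 / Int.gcd (X.a s.1) (Y.a s.2) : ℤ) : ZMod p))⁻¹ := ⟨_, rfl⟩
      rw [← hc']
      have h := pm_mulVec p degI A B (X.α s.1) (Y.β s.2) x
      rw [X.α_coc, Y.β_coc, zero_mul, mul_zero, add_zero] at h
      rw [← mul_zero c, ← h, Finset.mul_sum]
      exact Finset.sum_congr rfl fun y _ => by ring
    · simp only [if_neg hc]
      obtain ⟨c, hc'⟩ : ∃ c, c = (-1) ^ (n + 1) * (((Y.a s.2 / Int.gcd (X.a s.1) (Y.a s.2) : ℤ) : ZMod p))⁻¹ := ⟨_, rfl⟩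
      rw [← hc']
      have h := pm_mulVec p degI A B (X.β s.1) (Y.α s.2) x
      rw [X.β_coc, Y.α_coc, zero_mul, mul_zero, add_zero] at h
      rw [← mul_zero c, ← h, Finset.mul_sum]
      exact Finset.sum_congr rfl fun y _ => by ring
  dual s t := by
    have hzq := sum_prod_mul (fun i => (X.z s.1 i : ZMod p)) (X.α t.1) (fun j => (Y.q s.2 j : ZMod p)) (Y.β t.2)
    have hqz := sum_prod_mul (fun i => (X.q s.1 i : ZMod p)) (X.α t.1) (fun j => (Y.z s.2 j : ZMod p)) (Y.β t.2)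
    have hzq' := sum_prod_mul (fun i => (X.z s.1 i : ZMod p)) (X.β t.1) (fun j => (Y.q s.2 j : ZMod p)) (Y.α t.2)
    have hqz' := sum_prod_mul (fun i => (X.q s.1 i : ZMod p)) (X.β t.1) (fun j => (Y.z s.2 j : ZMod p)) (Y.α t.2)
    rw [X.α_dual, Y.β_dual] at hzq
    rw [X.β_dual, Y.α_dual] at hqz'
    rw [sum_deg_zero (fun i => (X.q s.1 i : ZMod p)) (X.α t.1) degI (n + 1) n (by omega)
      (fun i hi => by rw [X.q_deg s.1 i hi, Int.cast_zero]) (X.α_deg t.1), zero_mul] at hqz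
    rw [sum_deg_zero (fun i => (X.z s.1 i : ZMod p)) (X.β t.1) degI n (n + 1) (by omega)
      (fun i hi => by rw [X.z_deg s.1 i hi, Int.cast_zero]) (X.β_deg t.1), zero_mul] at hzq'
    have hst : (if s.1 = t.1 then (1 : ZMod p) else 0) * (if s.2 = t.2 then 1 else 0) = if s = t then 1 else 0 := by
      by_cases h1 : s.1 = t.1
      · by_cases h2 : s.2 = t.2
        · simp [h1, h2, Prod.ext_iff]
        · simp [h1, h2, Prod.ext_iff]
      · simp [h1, Prod.ext_iff]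
    rw [hst] at hzq hqz'
    obtain ⟨a', ha⟩ : ∃ a', a' = X.a s.1 / (Int.gcd (X.a s.1) (Y.a s.2) : ℤ) := ⟨_, rfl⟩
    obtain ⟨b', hb⟩ : ∃ b', b' = Y.a s.2 / (Int.gcd (X.a s.1) (Y.a s.2) : ℤ) := ⟨_, rfl⟩
    by_cases hc : (p : ℤ) ∣ Y.a t.2 / Int.gcd (X.a t.1) (Y.a t.2)
    · simp only [if_pos hc]
      obtain ⟨c, hc'⟩ : ∃ c, c = (((X.a t.1 / Int.gcd (X.a t.1) (Y.a t.2) : ℤ) : ZMod p))⁻¹ := ⟨_, rfl⟩
      rw [← ha, ← hb, ← hc']
      have h1 : ∀ x : I × J, ((a' * (X.z s.1 x.1 * Y.q s.2 x.2) + (-1) ^ (n + 1) * b' * (X.q s.1 x.1 * Y.z s.2 x.2) : ℤ) :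
          ZMod p) * (c * (X.α t.1 x.1 * Y.β t.2 x.2)) =
          c * a' * ((X.z s.1 x.1 * Y.q s.2 x.2) * (X.α t.1 x.1 * Y.β t.2 x.2)) +
          c * (-1) ^ (n + 1) * b' * ((X.q s.1 x.1 * Y.z s.2 x.2) * (X.α t.1 x.1 * Y.β t.2 x.2)) := by
        intro x
        push_cast
        ring
      rw [Finset.sum_congr rfl fun x _ => h1 x, Finset.sum_add_distrib, ← Finset.mul_sum, ← Finset.mul_sum, hzq, hqz,
        mul_zero, add_zero]
      by_cases h : s = t
      · subst h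
        rw [if_pos rfl, mul_one, hc', ← ha]
        refine inv_mul_cancel₀ ?_
        intro h0
        rw [ZMod.intCast_zmod_eq_zero_iff_dvd] at h0
        have h3 : (p : ℤ) ∣ 1 := by
          have := Int.gcd_ediv_gcd_ediv_gcd_of_ne_zero_left (m := Y.a s.2) (X.a_ne s.1)
          rw [← Int.natCast_one, ← this]
          exact Int.dvd_coe_gcd (ha ▸ h0) hc
        have h4 := (Nat.prime_iff_prime_int.1 (Fact.out : p.Prime)).not_dvd_one
        exact h4 h3
      · rw [if_neg h, mul_zero]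
    · simp only [if_neg hc]
      obtain ⟨c, hc'⟩ : ∃ c, c = (((Y.a t.2 / Int.gcd (X.a t.1) (Y.a t.2) : ℤ) : ZMod p))⁻¹ := ⟨_, rfl⟩
      rw [← ha, ← hb, ← hc']
      have h1 : ∀ x : I × J, ((a' * (X.z s.1 x.1 * Y.q s.2 x.2) + (-1) ^ (n + 1) * b' * (X.q s.1 x.1 * Y.z s.2 x.2) : ℤ) :
          ZMod p) * ((-1) ^ (n + 1) * c * (X.β t.1 x.1 * Y.α t.2 x.2)) =
          (-1) ^ (n + 1) * c * a' * ((X.z s.1 x.1 * Y.q s.2 x.2) * (X.β t.1 x.1 * Y.α t.2 x.2)) +
          ((-1) ^ (n + 1) * (-1) ^ (n + 1)) * c * b' * ((X.q s.1 x.1 * Y.z s.2 x.2) * (X.β t.1 x.1 * Y.α t.2 x.2)) := by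
        intro x
        push_cast
        ring
      rw [Finset.sum_congr rfl fun x _ => h1 x, Finset.sum_add_distrib, ← Finset.mul_sum, ← Finset.mul_sum, hzq', hqz',
        mul_zero, zero_add]
      have h5 : ((-1 : ZMod p) ^ (n + 1) * (-1) ^ (n + 1)) = 1 := by
        rw [← mul_pow]; simp
      rw [h5, one_mul]
      by_cases h : s = t
      · subst h
        rw [if_pos rfl, mul_one, hc', ← hb]
        refine inv_mul_cancel₀ ?_
        intro h0
        rw [ZMod.intCast_zmod_eq_zero_iff_dvd] at h0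
        exact hc (hb ▸ h0)
      · rw [if_neg h, mul_zero]

end plain

end Pool.Agent.V8H42.LT
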