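import Mathlib
import Pool.Agent.V8H42.LT.Fam

/-!
# Pairs from the Smith normal form (helper42)
-/

set_option autoImplicit false

noncomputable section

namespace Pool.Agent.V8H42.LT

open Module Matrix

section plain

variable {I : Type} [Fintype I] [DecidableEq I]

/-- the boundaries of degree `n` -/
def bdP (deg : I → ℕ) (A : Matrix I I ℤ) (n : ℕ) : Submodule ℤ (I → ℤ) where
  carrier := {v | ∃ u : I → ℤ, (∀ i, deg i ≠ n + 1 → u i = 0) ∧ u ᵥ* A = v}
  add_mem' := by
    rintro _ _ ⟨v, h1, rfl⟩ ⟨w, h3, rfl⟩
    exact ⟨v + w, fun i hi => by simp [h1 i hi, h3 i hi], Matrix.add_vecMul _ _ _⟩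
  zero_mem' := ⟨0, fun i _ => rfl, Matrix.zero_vecMul _⟩
  smul_mem' := by
    rintro c _ ⟨v, h1, rfl⟩
    exact ⟨c • v, fun i hi => by simp [h1 i hi], Matrix.smul_vecMul _ _ _⟩

/-- the boundary of the part of degree `n + 1` of a chain -/
def dl (deg : I → ℕ) (A : Matrix I I ℤ) (n : ℕ) : (I → ℤ) →ₗ[ℤ] bdP deg A n where
  toFun u := ⟨(fun i => if deg i = n + 1 then u i else 0) ᵥ* A, _, fun i hi => if_neg hi, rfl⟩
  map_add' u v := by
    apply Subtype.ext
    show _ ᵥ* A = _ ᵥ* A + _ ᵥ* A
    rw [← Matrix.add_vecMul]
    congr 1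
    funext i
    by_cases h : deg i = n + 1 <;> simp [h]
  map_smul' c v := by
    apply Subtype.ext
    show _ ᵥ* A = c • (_ ᵥ* A)
    rw [← Matrix.smul_vecMul]
    congr 1
    funext i
    by_cases h : deg i = n + 1 <;> simp [h]

theorem lin_cast (p : ℕ) (L : (I → ℤ) →ₗ[ℤ] ℤ) (u : I → ℤ) :
    ∑ k, (u k : ZMod p) * ((L (Pi.single k 1) : ℤ) : ZMod p) = ((L u : ℤ) : ZMod p) := by
  have h : L u = ∑ k, u k * L (Pi.single k 1) := by
    conv_lhs => rw [← Finset.univ_sum_single u]
    rw [map_sum]
    refine Finset.sum_congr rfl fun k _ => ?_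
    have : (Pi.single k (u k) : I → ℤ) = u k • Pi.single k 1 := by
      rw [← Pi.single_smul, smul_eq_mul, mul_one]
    rw [this, map_smul, smul_eq_mul]
  rw [h]
  push_cast
  rfl

theorem exists_pairs (p : ℕ) [hp : Fact p.Prime] (deg : I → ℕ) (A : Matrix I I ℤ)
    (hA : ∀ i j, A i j ≠ 0 → deg i = deg j + 1) (hAA : A * A = 0) (n : ℕ) :
    ∃ (S : Type) (_ : Fintype S) (_ : DecidableEq S) (_ : Pairs p deg A n S),
      ((A.map (Int.cast : ℤ → ℝ)).submatrix (fun x : {x : I // deg x = n + 1} => x.1) id).rank ≤
      ((A.map (Int.cast : ℤ → ZMod p)).submatrix (fun x : {x : I // deg x = n + 1} => x.1) id).rank +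
        Fintype.card S := by
  classical
  obtain ⟨r, bM, bN, f, a, snf⟩ := (bdP deg A n).smithNormalForm (Pi.basisFun ℤ I)
  have hN : ∀ v ∈ bdP deg A n, ∀ i, deg i ≠ n → v i = 0 := by
    rintro _ ⟨u, hu, rfl⟩ i hi
    rw [vecMul, dotProduct]
    refine Finset.sum_eq_zero fun k _ => ?_
    by_cases h1 : deg k = n + 1
    · have : A k i = 0 := by
        by_contra h
        have := hA _ _ h
        omega
      rw [this, mul_zero]
    · rw [hu k h1, zero_mul]
  choose q hq hqA using fun i => (bN i).2
  have ha0 : ∀ i, a i ≠ 0 := by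
    intro i h
    have := snf i
    rw [h, zero_smul] at this
    exact bN.ne_zero i (Subtype.ext this)
  have hrow : ∀ k, deg k = n + 1 → A k ∈ bdP deg A n := by
    intro k hk
    refine ⟨Pi.single k 1, fun i hi => ?_, ?_⟩
    · rw [Pi.single_apply, if_neg]
      rintro rfl
      exact hi hk
    · rw [Matrix.single_one_vecMul]
      rfl
  have hz : ∀ i k, deg k ≠ n → bM (f i) k = 0 := by
    intro i k hk
    have h1 := hN _ (bN i).2 k hk
    rw [snf, Pi.smul_apply, smul_eq_mul] at h1
    exact (mul_eq_zero.1 h1).resolve_left (ha0 i)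
  have hzc : ∀ i, bM (f i) ᵥ* A = 0 := by
    intro i
    have h1 : (a i • bM (f i)) ᵥ* A = 0 := by
      rw [← snf, ← hqA, Matrix.vecMul_vecMul, hAA, Matrix.vecMul_zero]
    rw [Matrix.smul_vecMul] at h1
    exact (smul_eq_zero.1 h1).resolve_left (ha0 i)
  have hcoord : ∀ (v : bdP deg A n) i, bM.coord (f i) (v : I → ℤ) = bN.coord i v * a i := by
    intro v i
    conv_lhs => rw [← bN.sum_repr v]
    rw [Submodule.coe_sum, map_sum]
    have h1 : ∀ j, bM.coord (f i) (((bN.repr v j) • bN j : bdP deg A n) : I → ℤ) =
        if j = i then bN.coord i v * a i else 0 := by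
      intro j
      rw [Submodule.coe_smul, snf, map_smul, map_smul, Basis.coord_apply, Basis.repr_self]
      by_cases hj : j = i
      · subst hj
        simp
      · rw [if_neg hj, Finsupp.single_apply, if_neg (fun h => hj (f.injective h))]
        simp
    rw [Finset.sum_congr rfl fun j _ => h1 j, Finset.sum_ite_eq' Finset.univ i]
    simp
  -- the cocycles
  obtain ⟨α, hα⟩ : ∃ α : Fin r → I → ZMod p, α = fun i k => if deg k = n then
    ((bM.coord (f i) (Pi.single k 1) : ℤ) : ZMod p) else 0 := ⟨_, rfl⟩
  have hαv : ∀ i (v : I → ℤ), (∀ k, deg k ≠ n → v k = 0) → ∑ k, (v k : ZMod p) * α i k =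
      ((bM.coord (f i) v : ℤ) : ZMod p) := by
    intro i v hv
    rw [← lin_cast]
    refine Finset.sum_congr rfl fun k _ => ?_
    rw [hα]
    by_cases hk : deg k = n
    · simp [hk]
    · simp [hv k hk]
  have hαz : ∀ i j, ∑ k, (bM (f i) k : ZMod p) * α j k = if i = j then 1 else 0 := by
    intro i j
    rw [hαv j _ (hz i), Basis.coord_apply, Basis.repr_self, Finsupp.single_apply]
    by_cases h : i = j
    · simp [h]
    · rw [if_neg (fun h' => h (f.injective h')), if_neg h]
      simp
  let S : Type := {i : Fin r // (p : ℤ) ∣ a i}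
  have hS : ∀ s t : S, (s = t ↔ s.1 = t.1) := fun s t => Subtype.ext_iff
  refine ⟨S, inferInstance, inferInstance,
    { z := fun s => bM (f s.1)
      q := fun s => q s.1
      a := fun s => a s.1
      α := fun s => α s.1
      β := fun s k => ((bN.coord s.1 (dl deg A n (Pi.single k 1)) : ℤ) : ZMod p)
      z_deg := fun s => hz s.1
      z_cyc := fun s => hzc s.1
      q_deg := fun s => hq s.1
      a_ne := fun s => ha0 s.1
      a_p := fun s => s.2
      bd := fun s => by rw [hqA, snf]
      α_deg := fun s k hk => by rw [hα]; simp [hk]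
      α_coc := fun s k => by
        by_cases hk : deg k = n + 1
        · have h1 := hαv s.1 (A k) (hN _ (hrow k hk))
          rw [h1, hcoord ⟨A k, hrow k hk⟩ s.1, ZMod.intCast_zmod_eq_zero_iff_dvd]
          exact Dvd.dvd.mul_left s.2 _
        · refine Finset.sum_eq_zero fun j _ => ?_
          by_cases h1 : A k j = 0
          · rw [h1, Int.cast_zero, zero_mul]
          · have h2 := hA _ _ h1
            rw [hα]
            simp [show deg j ≠ n by omega]
      α_dual := fun s t => by
        rw [hαz]
        simp only [hS]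
      β_deg := fun s k hk => by
        have h1 : dl deg A n (Pi.single k 1) = 0 := by
          apply Subtype.ext
          show _ ᵥ* A = 0
          convert Matrix.zero_vecMul A
          rename_i i
          by_cases hi : i = k
          · subst hi
            simp [hk]
          · simp [hi]
        rw [h1, map_zero, Int.cast_zero]
      β_coc := fun s k => by
        have h1 := lin_cast p (bN.coord s.1 ∘ₗ dl deg A n) (A k)
        have h2 : dl deg A n (A k) = 0 := by
          apply Subtype.ext
          show _ ᵥ* A = 0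
          by_cases hk : deg k = n + 2
          · have h3 : (fun i => if deg i = n + 1 then A k i else 0) = A k := by
              funext i
              split_ifs with hi
              · rfl
              · by_contra h4
                have := hA _ _ (Ne.symm h4)
                omega
            rw [h3]
            have h4 : (A * A) k = A k ᵥ* A := Matrix.mul_apply_eq_vecMul _ _ _
            rw [← h4, hAA]
            rfl
          · have h3 : (fun i => if deg i = n + 1 then A k i else 0) = 0 := by
              funext i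
              split_ifs with hi
              · by_contra h4
                have := hA _ _ h4
                omega
              · rfl
            rw [h3, Matrix.zero_vecMul]
        rw [LinearMap.comp_apply, h2, map_zero, Int.cast_zero] at h1
        exact h1
      β_dual := fun s t => by
        have h1 := lin_cast p (bN.coord t.1 ∘ₗ dl deg A n) (q s.1)
        have h2 : dl deg A n (q s.1) = bN s.1 := by
          apply Subtype.ext
          show _ ᵥ* A = _
          rw [← hqA]
          congr 1
          funext i
          split_ifs with hi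
          · rfl
          · exact (hq s.1 i hi).symm
        rw [LinearMap.comp_apply, h2] at h1
        refine h1.trans ?_
        rw [Basis.coord_apply, Basis.repr_self, Finsupp.single_apply]
        simp only [hS]
        by_cases h : s.1 = t.1
        · simp [h]
        · simp [h] }, ?_⟩
  -- ranks
  have hr : ((A.map (Int.cast : ℤ → ℝ)).submatrix (fun x : {x : I // deg x = n + 1} => x.1) id).rank ≤ r := by
    rw [Matrix.rank_eq_finrank_span_row]
    have h1 : Submodule.span ℝ (Set.range ((A.map (Int.cast : ℤ → ℝ)).submatrix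
        (fun x : {x : I // deg x = n + 1} => x.1) id).row) ≤
        Submodule.span ℝ (Set.range fun i : Fin r => (fun k => (((bN i : I → ℤ) k : ℤ) : ℝ))) := by
      rw [Submodule.span_le]
      rintro _ ⟨⟨k, hk⟩, rfl⟩
      have h2 : (fun j => ((A k j : ℤ) : ℝ)) = ∑ i, ((bN.repr ⟨A k, hrow k hk⟩ i : ℤ) : ℝ) •
          (fun k => (((bN i : I → ℤ) k : ℤ) : ℝ)) := by
        have h3 := congrArg Subtype.val (bN.sum_repr ⟨A k, hrow k hk⟩)
        rw [Submodule.coe_sum] at h3
        funext j
        have h4 := congrFun h3 j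
        rw [Finset.sum_apply] at h4 ⊢
        change _ = A k j at h4
        rw [← h4]
        push_cast
        refine Finset.sum_congr rfl fun i _ => ?_
        simp
      show (fun j => ((A k j : ℤ) : ℝ)) ∈ _
      rw [h2]
      exact Submodule.sum_mem _ fun i _ => Submodule.smul_mem _ _ (Submodule.subset_span ⟨i, rfl⟩)
    refine (Submodule.finrank_mono h1).trans ?_
    refine (finrank_range_le_card _).trans ?_
    simp
  have hs : Fintype.card {i : Fin r // ¬ (p : ℤ) ∣ a i} ≤
      ((A.map (Int.cast : ℤ → ZMod p)).submatrix (fun x : {x : I // deg x = n + 1} => x.1) id).rank := by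
    rw [Matrix.rank_eq_finrank_span_row]
    have hli : LinearIndependent (ZMod p) (fun i : {i : Fin r // ¬ (p : ℤ) ∣ a i} =>
        (fun k => ((bM (f i.1) k : ℤ) : ZMod p))) := by
      rw [Fintype.linearIndependent_iff]
      intro g hg t
      have h1 : ∑ k, (∑ i, g i • (fun k => ((bM (f i.1) k : ℤ) : ZMod p))) k * α t.1 k = 0 := by
        rw [hg]
        simp
      have h2 : ∑ k, (∑ i, g i • (fun k => ((bM (f i.1) k : ℤ) : ZMod p))) k * α t.1 k = g t := by
        simp only [Finset.sum_apply, Pi.smul_apply, smul_eq_mul, Finset.sum_mul]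
        rw [Finset.sum_comm]
        have h3 : ∀ i : {i : Fin r // ¬ (p : ℤ) ∣ a i}, ∑ k, g i * ((bM (f i.1) k : ℤ) : ZMod p) * α t.1 k =
            if i = t then g i else 0 := by
          intro i
          simp only [mul_assoc]
          rw [← Finset.mul_sum, hαz]
          by_cases h : i = t
          · simp [h]
          · simp [h, Subtype.ext_iff.not.1 h]
        rw [Finset.sum_congr rfl fun i _ => h3 i, Finset.sum_ite_eq' Finset.univ t]
        simp
      rw [h2] at h1
      exact h1
    have h2 := finrank_span_eq_card hli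
    rw [← h2]
    refine Submodule.finrank_mono ?_
    rw [Submodule.span_le]
    rintro _ ⟨i, rfl⟩
    have hai : ((a i.1 : ℤ) : ZMod p) ≠ 0 := by
      intro h
      rw [ZMod.intCast_zmod_eq_zero_iff_dvd] at h
      exact i.2 h
    have h3 : (fun k => ((bM (f i.1) k : ℤ) : ZMod p)) = ((a i.1 : ℤ) : ZMod p)⁻¹ • ∑ x : {x : I // deg x = n + 1},
        ((q i.1 x.1 : ℤ) : ZMod p) • ((A.map (Int.cast : ℤ → ZMod p)).submatrix
        (fun x : {x : I // deg x = n + 1} => x.1) id).row x := by
      rw [eq_inv_smul_iff₀ hai]
      funext k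
      have h4 := congrFun (hqA i.1) k
      rw [snf, Pi.smul_apply, smul_eq_mul] at h4
      have h5 : ∑ x : {x : I // deg x = n + 1}, (q i.1 x.1 * A x.1 k) = a i.1 * bM (f i.1) k := by
        rw [← h4, vecMul, dotProduct]
        rw [← Finset.sum_subtype (Finset.univ.filter fun x => deg x = n + 1) (by simp) (fun x => q i.1 x * A x k),
          Finset.sum_filter]
        refine Finset.sum_congr rfl fun x _ => ?_
        split_ifs with hx
        · rfl
        · rw [hq i.1 x hx, zero_mul]
      have h6 := congrArg (Int.cast : ℤ → ZMod p) h5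
      push_cast at h6
      rw [Pi.smul_apply, smul_eq_mul, ← h6, Finset.sum_apply]
      rfl
    show (fun k => ((bM (f i.1) k : ℤ) : ZMod p)) ∈ _
    rw [h3]
    exact Submodule.smul_mem _ _ (Submodule.sum_mem _ fun x _ => Submodule.smul_mem _ _
      (Submodule.subset_span ⟨x, rfl⟩))
  have hc : Fintype.card {i : Fin r // ¬ (p : ℤ) ∣ a i} = r - Fintype.card S := by
    rw [Fintype.card_subtype_compl, Fintype.card_fin]
  omega

end plain

end Pool.Agent.V8H42.LT
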