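import Mathlib
import Pool.Agent.V8H42.LT.Snf
import Pool.Agent.N496.LT.Stm

/-!
# P3T and P3S: torsion of the products of complexes (helper42)
-/

set_option autoImplicit false

noncomputable section

namespace Pool.Agent.V8H42.LT

open Module Matrix Pool.Agent.N496.LT Pool.Agent.Helper993.Delta

section reindex

variable {I J : Type} [Fintype I] [Fintype J]

/-- reindexing of a family -/
def Fam.reindex {p : ℕ} {deg : I → ℕ} {A : Matrix I I ℤ} {n : ℕ} {S : Type} [DecidableEq S]
    (X : Fam p deg A n S) (θ : J ≃ I) (deg' : J → ℕ) (B : Matrix J J ℤ) (hdeg : ∀ x, deg' x = deg (θ x))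
    (hB : ∀ x y, B x y = A (θ x) (θ y)) : Fam p deg' B n S where
  w s x := X.w s (θ x)
  φ s x := X.φ s (θ x)
  w_deg s x h := X.w_deg s _ (by rwa [← hdeg])
  w_cyc s := by
    funext y
    have h := congrFun (X.w_cyc s) (θ y)
    rw [vecMul, dotProduct, ← θ.sum_comp] at h
    rw [vecMul, dotProduct]
    simp only [hB]
    exact h
  w_tors s := by
    obtain ⟨c, hc, u, hu, h⟩ := X.w_tors s
    refine ⟨c, hc, fun x => u (θ x), fun x hx => hu _ (by rwa [← hdeg]), ?_⟩
    funext y
    have h1 := congrFun h (θ y)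
    rw [vecMul, dotProduct, ← θ.sum_comp] at h1
    rw [vecMul, dotProduct]
    simp only [hB]
    exact h1
  φ_deg s x h := X.φ_deg s _ (by rwa [← hdeg])
  φ_coc s x := by
    have h := X.φ_coc s (θ x)
    rw [← θ.sum_comp] at h
    simp only [hB]
    exact h
  dual s t := by
    have h := X.dual s t
    rw [← θ.sum_comp] at h
    exact h

end reindex

theorem pm_apply {I J : Type} [DecidableEq I] [DecidableEq J] (deg : I → ℕ) (A : Matrix I I ℤ)
    (B : Matrix J J ℤ) (x y : I × J) : pm deg A B x y =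
      (if x.2 = y.2 then A x.1 y.1 else 0) + (if x.1 = y.1 then (-1) ^ deg x.1 * B x.2 y.2 else 0) := rfl

section fin

theorem mat_apply {Q : Type} [Group Q] (C : GCx Q) (x y : C.ι × Q) :
    C.mat ℤ x y = (C.D x.1 y.1).coeff (x.2⁻¹ * y.2) := rfl

variable {Q : Type} [Group Q] [Fintype Q] (C : GCx Q)

/-- chains over the group ring as functions on the cells -/
def toP : (C.ι → MonoidAlgebra ℤ Q) →+ (C.ι × Q → ℤ) where
  toFun v x := (v x.1).coeff x.2
  map_zero' := rfl
  map_add' _ _ := rfl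

/-- the inverse of `toP` -/
def ofP : (C.ι × Q → ℤ) →+ (C.ι → MonoidAlgebra ℤ Q) where
  toFun w i := MonoidAlgebra.ofCoeff (Finsupp.equivFunOnFinite.symm fun g => w (i, g))
  map_zero' := by
    funext i
    ext g
    rfl
  map_add' _ _ := by
    funext i
    ext g
    rfl

theorem toP_ofP (w : C.ι × Q → ℤ) : toP C (ofP C w) = w := by
  funext x
  rfl

theorem toP_inj : Function.Injective (toP C) := by
  intro v w h
  funext i
  ext g
  exact congrFun h (i, g)

theorem toP_vecMul (v : C.ι → MonoidAlgebra ℤ Q) : toP C (v ᵥ* C.D) = toP C v ᵥ* C.mat ℤ := by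
  funext x
  obtain ⟨j, h⟩ := x
  show ((v ᵥ* C.D) j).coeff h = _
  rw [vecMul, dotProduct, MonoidAlgebra.coeff_sum, Finsupp.finsetSum_apply, vecMul, dotProduct,
    Fintype.sum_prod_type]
  refine Finset.sum_congr rfl fun i _ => ?_
  rw [MonoidAlgebra.coeff_mul_apply_left, Finsupp.sum_fintype _ _ (fun g => by simp)]
  refine Finset.sum_congr rfl fun g _ => ?_
  show _ = (v i).coeff g * (((C.D i j).coeff (g⁻¹ * h) : ℤ) : ℤ)
  simp

theorem mat_deg (x y : C.ι × Q) (h : C.mat ℤ x y ≠ 0) : C.deg x.1 = C.deg y.1 + 1 := by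
  apply C.D_deg
  intro h0
  apply h
  show (((C.D x.1 y.1).coeff (x.2⁻¹ * y.2) : ℤ) : ℤ) = 0
  rw [h0]
  rfl

theorem mat_sq : C.mat ℤ * C.mat ℤ = 0 := by
  classical
  ext x y
  have h : ((Pi.single x 1 : C.ι × Q → ℤ) ᵥ* C.mat ℤ) ᵥ* C.mat ℤ = 0 := by
    rw [← toP_ofP C (Pi.single x 1), ← toP_vecMul, ← toP_vecMul, Matrix.vecMul_vecMul, C.D_sq, Matrix.vecMul_zero,
      map_zero]
  rw [Matrix.vecMul_vecMul, Matrix.single_one_vecMul] at h
  exact congrFun h y

theorem mat_cast (F : Type) [Ring F] : C.mat F = (C.mat ℤ).map (Int.cast : ℤ → F) := by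
  ext x y
  simp [GCx.mat]

theorem fam_le (p : ℕ) [Fact p.Prime] (n : ℕ) {S : Type} [Fintype S] [DecidableEq S]
    (X : Fam p (fun x : C.ι × Q => C.deg x.1) (C.mat ℤ) n S) : p ^ Fintype.card S ≤ C.torsOrder n := by
  classical
  have hMf : Module.Finite ℤ (C.ι → MonoidAlgebra ℤ Q) := by
    refine Module.Finite.of_surjective (ofP C).toIntLinearMap ?_
    intro v
    refine ⟨toP C v, toP_inj C ?_⟩
    exact toP_ofP C _
  refine abs_fam p (C.cyc n) (C.bdy n) (fun s => ofP C (X.w s)) ?_ ?_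
    (fun s => { toFun := fun v => ∑ x, ((toP C v x : ℤ) : ZMod p) * X.φ s x
                map_zero' := by simp
                map_add' := by
                  intro v w
                  rw [map_add, ← Finset.sum_add_distrib]
                  refine Finset.sum_congr rfl fun x _ => ?_
                  rw [Pi.add_apply]
                  push_cast
                  ring }) ?_ ?_
  · intro s
    refine ⟨fun i hi => ?_, ?_⟩
    · ext g
      exact X.w_deg s (i, g) hi
    · apply toP_inj C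
      rw [toP_vecMul, toP_ofP, X.w_cyc, map_zero]
  · intro s
    obtain ⟨c, hc, u, hu, h⟩ := X.w_tors s
    refine ⟨c, hc, ofP C u, fun i hi => ?_, ?_⟩
    · ext g
      exact hu (i, g) hi
    · apply toP_inj C
      rw [toP_vecMul, toP_ofP, h, map_zsmul, toP_ofP]
  · rintro s _ ⟨u, hu, rfl⟩
    show ∑ x, ((toP C (u ᵥ* C.D) x : ℤ) : ZMod p) * X.φ s x = 0
    rw [toP_vecMul]
    have h1 : ∀ x, (((toP C u ᵥ* C.mat ℤ) x : ℤ) : ZMod p) * X.φ s x =
        ∑ y, ((toP C u y : ℤ) : ZMod p) * ((C.mat ℤ y x : ZMod p) * X.φ s x) := by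
      intro x
      rw [vecMul, dotProduct]
      push_cast
      rw [Finset.sum_mul]
      exact Finset.sum_congr rfl fun y _ => by ring
    rw [Finset.sum_congr rfl fun x _ => h1 x, Finset.sum_comm]
    refine Finset.sum_eq_zero fun y _ => ?_
    rw [← Finset.mul_sum, X.φ_coc, mul_zero]
  · intro s t
    show ∑ x, ((toP C (ofP C (X.w s)) x : ℤ) : ZMod p) * X.φ t x = _
    rw [toP_ofP]
    exact X.dual s t

/-- pairs for a complex over a finite group, as many as the number of cyclic summands of `p`-power order -/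
theorem tp_pairs (p : ℕ) [Fact p.Prime] (n : ℕ) : ∃ (S : Type) (_ : Fintype S) (_ : DecidableEq S)
    (_ : Pairs p (fun x : C.ι × Q => C.deg x.1) (C.mat ℤ) n S), C.tp p n ≤ Fintype.card S := by
  classical
  obtain ⟨S, h1, h2, X, h⟩ := exists_pairs p (fun x : C.ι × Q => C.deg x.1) (C.mat ℤ) (mat_deg C) (mat_sq C) n
  refine ⟨S, h1, h2, X, ?_⟩
  have e : C.tp p n = ((C.mat ℝ).submatrix (fun x : {x : C.ι × Q // C.deg x.1 = n + 1} => x.1) id).rank -
    ((C.mat (ZMod p)).submatrix (fun x : {x : C.ι × Q // C.deg x.1 = n + 1} => x.1) id).rank := rfl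
  rw [e, mat_cast C ℝ, mat_cast C (ZMod p)]
  omega

end fin

section prod

variable {G H : Type} [Group G] [Group H] (C : GCx G) (E : GCx H) (N : Subgroup G) [N.Normal] (M : Subgroup H)
  [M.Normal]

/-- the quotient of a product -/
def qe : (G × H) ⧸ (N.prod M) →* (G ⧸ N) × (H ⧸ M) :=
  QuotientGroup.lift (N.prod M) ((QuotientGroup.mk' N).prodMap (QuotientGroup.mk' M)) (by
    rintro ⟨g, h⟩ ⟨hg, hh⟩
    rw [MonoidHom.mem_ker]
    exact Prod.ext ((QuotientGroup.eq_one_iff g).2 hg) ((QuotientGroup.eq_one_iff h).2 hh))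

theorem qe_mk (x : G × H) : qe N M (QuotientGroup.mk x) = (QuotientGroup.mk x.1, QuotientGroup.mk x.2) := rfl

theorem qe_inj : Function.Injective (qe N M) := by
  rw [injective_iff_map_eq_one]
  intro x hx
  induction x using QuotientGroup.induction_on with
  | H x =>
    rw [qe_mk, Prod.ext_iff] at hx
    rw [QuotientGroup.eq_one_iff]
    exact ⟨(QuotientGroup.eq_one_iff _).1 hx.1, (QuotientGroup.eq_one_iff _).1 hx.2⟩

theorem qe_surj : Function.Surjective (qe N M) := by
  rintro ⟨x, y⟩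
  induction x using QuotientGroup.induction_on with
  | H x =>
    induction y using QuotientGroup.induction_on with
    | H y => exact ⟨QuotientGroup.mk (x, y), rfl⟩

/-- the bijection between the cells of a quotient of a product and of the product of the quotients -/
def thE : ((C.prod E).quot (N.prod M)).ι × ((G × H) ⧸ (N.prod M)) ≃
    ((C.quot N).ι × (G ⧸ N)) × ((E.quot M).ι × (H ⧸ M)) :=
  Equiv.ofBijective (fun x => ((x.1.1, (qe N M x.2).1), (x.1.2, (qe N M x.2).2))) (by
    constructor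
    · rintro ⟨⟨i, j⟩, r⟩ ⟨⟨i', j'⟩, r'⟩ h
      have h1 : i = i' := congrArg (fun x => x.1.1) h
      have h2 : (qe N M r).1 = (qe N M r').1 := congrArg (fun x => x.1.2) h
      have h3 : j = j' := congrArg (fun x => x.2.1) h
      have h4 : (qe N M r).2 = (qe N M r').2 := congrArg (fun x => x.2.2) h
      have h5 : r = r' := qe_inj N M (Prod.ext h2 h4)
      subst h5
      subst h1
      subst h3
      rfl
    · rintro ⟨⟨i, g⟩, ⟨j, h⟩⟩
      obtain ⟨r, hr⟩ := qe_surj N M (g, h)
      exact ⟨((i, j), r), by simp [hr]⟩)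

theorem thE_apply (x : ((C.prod E).quot (N.prod M)).ι × ((G × H) ⧸ (N.prod M))) :
    thE C E N M x = ((x.1.1, (qe N M x.2).1), (x.1.2, (qe N M x.2).2)) := rfl

open Classical in
theorem coeff_inl (a : MonoidAlgebra ℤ G) (r : (G × H) ⧸ (N.prod M)) :
    (MonoidAlgebra.mapDomainRingHom ℤ (QuotientGroup.mk' (N.prod M))
      (MonoidAlgebra.mapDomainRingHom ℤ (MonoidHom.inl G H) a)).coeff r =
    if (qe N M r).2 = 1 then (MonoidAlgebra.mapDomainRingHom ℤ (QuotientGroup.mk' N) a).coeff (qe N M r).1 else 0 := by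
  induction a using MonoidAlgebra.induction_linear with
  | zero => simp
  | add f g hf hg =>
    rw [map_add, map_add, MonoidAlgebra.coeff_add, Finsupp.add_apply, hf, hg, map_add, MonoidAlgebra.coeff_add,
      Finsupp.add_apply]
    split_ifs <;> simp
  | single g n =>
    rw [MonoidAlgebra.mapDomainRingHom_apply, MonoidAlgebra.mapDomainRingHom_apply,
      MonoidAlgebra.mapDomainRingHom_apply, MonoidAlgebra.mapDomain_single, MonoidAlgebra.mapDomain_single,
      MonoidAlgebra.mapDomain_single, MonoidAlgebra.coeff_single, MonoidAlgebra.coeff_single,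
      Finsupp.single_apply, Finsupp.single_apply]
    have h1 : ((QuotientGroup.mk' (N.prod M)) ((MonoidHom.inl G H) g) = r) ↔
        ((QuotientGroup.mk' N) g = (qe N M r).1 ∧ (qe N M r).2 = 1) := by
      constructor
      · rintro rfl
        exact ⟨rfl, rfl⟩
      · rintro ⟨h1, h2⟩
        apply qe_inj N M
        exact Prod.ext h1 h2.symm
    by_cases h2 : (qe N M r).2 = 1
    · rw [if_pos h2]
      exact if_congr (h1.trans (and_iff_left h2)) rfl rfl
    · rw [if_neg h2, if_neg (fun h => h2 (h1.1 h).2)]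

open Classical in
theorem coeff_inr (a : MonoidAlgebra ℤ H) (r : (G × H) ⧸ (N.prod M)) :
    (MonoidAlgebra.mapDomainRingHom ℤ (QuotientGroup.mk' (N.prod M))
      (MonoidAlgebra.mapDomainRingHom ℤ (MonoidHom.inr G H) a)).coeff r =
    if (qe N M r).1 = 1 then (MonoidAlgebra.mapDomainRingHom ℤ (QuotientGroup.mk' M) a).coeff (qe N M r).2 else 0 := by
  induction a using MonoidAlgebra.induction_linear with
  | zero => simp
  | add f g hf hg =>
    rw [map_add, map_add, MonoidAlgebra.coeff_add, Finsupp.add_apply, hf, hg, map_add, MonoidAlgebra.coeff_add,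
      Finsupp.add_apply]
    split_ifs <;> simp
  | single g n =>
    rw [MonoidAlgebra.mapDomainRingHom_apply, MonoidAlgebra.mapDomainRingHom_apply,
      MonoidAlgebra.mapDomainRingHom_apply, MonoidAlgebra.mapDomain_single, MonoidAlgebra.mapDomain_single,
      MonoidAlgebra.mapDomain_single, MonoidAlgebra.coeff_single, MonoidAlgebra.coeff_single,
      Finsupp.single_apply, Finsupp.single_apply]
    have h1 : ((QuotientGroup.mk' (N.prod M)) ((MonoidHom.inr G H) g) = r) ↔
        ((QuotientGroup.mk' M) g = (qe N M r).2 ∧ (qe N M r).1 = 1) := by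
      constructor
      · rintro rfl
        exact ⟨rfl, rfl⟩
      · rintro ⟨h1, h2⟩
        apply qe_inj N M
        exact Prod.ext h2.symm h1
    by_cases h2 : (qe N M r).1 = 1
    · rw [if_pos h2]
      exact if_congr (h1.trans (and_iff_left h2)) rfl rfl
    · rw [if_neg h2, if_neg (fun h => h2 (h1.1 h).2)]

theorem quot_D (i j : C.ι) : (C.quot N).D i j = MonoidAlgebra.mapDomainRingHom ℤ (QuotientGroup.mk' N) (C.D i j) := rfl

theorem mat_prod [DecidableEq ((C.quot N).ι × (G ⧸ N))] [DecidableEq ((E.quot M).ι × (H ⧸ M))]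
    (x y : ((C.prod E).quot (N.prod M)).ι × ((G × H) ⧸ (N.prod M))) :
    ((C.prod E).quot (N.prod M)).mat ℤ x y =
      pm (fun x : (C.quot N).ι × (G ⧸ N) => (C.quot N).deg x.1) ((C.quot N).mat ℤ) ((E.quot M).mat ℤ)
        (thE C E N M x) (thE C E N M y) := by
  obtain ⟨⟨i, j⟩, r⟩ := x
  obtain ⟨⟨i', j'⟩, r'⟩ := y
  have hm : qe N M (r⁻¹ * r') = ((qe N M r).1⁻¹ * (qe N M r').1, (qe N M r).2⁻¹ * (qe N M r').2) := by
    rw [map_mul, map_inv]
    rfl
  have hj2 : (thE C E N M ((i, j), r)).2 = (thE C E N M ((i', j'), r')).2 ↔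
      (j = j' ∧ (qe N M r).2 = (qe N M r').2) :=
    ⟨fun h => ⟨congrArg (fun x => x.1) h, congrArg (fun x => x.2) h⟩, fun h => Prod.ext h.1 h.2⟩
  have hi2 : (thE C E N M ((i, j), r)).1 = (thE C E N M ((i', j'), r')).1 ↔
      (i = i' ∧ (qe N M r).1 = (qe N M r').1) :=
    ⟨fun h => ⟨congrArg (fun x => x.1) h, congrArg (fun x => x.2) h⟩, fun h => Prod.ext h.1 h.2⟩
  refine Eq.trans ?_ (pm_apply _ _ _ (thE C E N M ((i, j), r)) (thE C E N M ((i', j'), r'))).symm
  rw [mat_apply, mat_apply, mat_apply]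
  show (MonoidAlgebra.mapDomainRingHom ℤ (QuotientGroup.mk' (N.prod M))
      ((if j = j' then MonoidAlgebra.mapDomainRingHom ℤ (MonoidHom.inl G H) (C.D i i') else 0) +
       (if i = i' then (-1) ^ C.deg i * MonoidAlgebra.mapDomainRingHom ℤ (MonoidHom.inr G H) (E.D j j')
      else 0))).coeff (r⁻¹ * r') = _
  rw [map_add, MonoidAlgebra.coeff_add, Finsupp.add_apply]
  refine congrArg₂ (· + ·) ?_ ?_
  · by_cases h1 : j = j'
    · rw [if_pos h1, coeff_inl, hm]
      by_cases h2 : (qe N M r).2 = (qe N M r').2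
      · rw [if_pos (by rw [h2, inv_mul_cancel]), if_pos (hj2.2 ⟨h1, h2⟩)]
        rfl
      · rw [if_neg (fun h => h2 (inv_mul_eq_one.1 h)), if_neg (fun h => h2 (hj2.1 h).2)]
    · rw [if_neg h1, if_neg (fun h => h1 (hj2.1 h).1), map_zero]
      rfl
  · by_cases h1 : i = i'
    · have h3 : (-1 : MonoidAlgebra ℤ (G × H)) ^ C.deg i * MonoidAlgebra.mapDomainRingHom ℤ (MonoidHom.inr G H) (E.D j j') =
          ((-1 : ℤ) ^ C.deg i) • MonoidAlgebra.mapDomainRingHom ℤ (MonoidHom.inr G H) (E.D j j') := by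
        rcases Nat.even_or_odd (C.deg i) with h | h
        · rw [h.neg_one_pow, h.neg_one_pow, one_mul, one_smul]
        · rw [h.neg_one_pow, h.neg_one_pow, neg_one_mul, neg_one_smul]
      rw [if_pos h1, h3, map_zsmul, MonoidAlgebra.coeff_smul, Finsupp.smul_apply, coeff_inr, hm, smul_eq_mul]
      by_cases h2 : (qe N M r).1 = (qe N M r').1
      · rw [if_pos (by rw [h2, inv_mul_cancel]), if_pos (hi2.2 ⟨h1, h2⟩)]
        rfl
      · rw [if_neg (fun h => h2 (inv_mul_eq_one.1 h)), if_neg (fun h => h2 (hi2.1 h).2), mul_zero]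
    · rw [if_neg h1, if_neg (fun h => h1 (hi2.1 h).1), map_zero]
      rfl

/-- families for a product from families for the factors -/
def famProd {p n m : ℕ} {S T : Type} [Fintype (G ⧸ N)] [Fintype (H ⧸ M)] [Fintype ((G × H) ⧸ (N.prod M))]
    [DecidableEq ((C.quot N).ι × (G ⧸ N))] [DecidableEq ((E.quot M).ι × (H ⧸ M))]
    [DecidableEq S] [DecidableEq T] (X : Fam p (fun x : (C.quot N).ι × (G ⧸ N) => (C.quot N).deg x.1)
      ((C.quot N).mat ℤ) n S) (Y : Fam p (fun x : (E.quot M).ι × (H ⧸ M) => (E.quot M).deg x.1)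
      ((E.quot M).mat ℤ) m T) :
    Fam p (fun x : ((C.prod E).quot (N.prod M)).ι × ((G × H) ⧸ (N.prod M)) => ((C.prod E).quot (N.prod M)).deg x.1)
      (((C.prod E).quot (N.prod M)).mat ℤ) (n + m) (S × T) :=
  (X.prod Y).reindex (thE C E N M) _ _ (fun _ => rfl) (mat_prod C E N M)

/-- the second family for a product from pairs for the factors -/
def famTor {p n m : ℕ} [Fact p.Prime] {S T : Type} [Fintype (G ⧸ N)] [Fintype (H ⧸ M)]
    [Fintype ((G × H) ⧸ (N.prod M))]
    [DecidableEq ((C.quot N).ι × (G ⧸ N))] [DecidableEq ((E.quot M).ι × (H ⧸ M))]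
    [DecidableEq S] [DecidableEq T] (X : Pairs p (fun x : (C.quot N).ι × (G ⧸ N) => (C.quot N).deg x.1)
      ((C.quot N).mat ℤ) n S) (Y : Pairs p (fun x : (E.quot M).ι × (H ⧸ M) => (E.quot M).deg x.1)
      ((E.quot M).mat ℤ) m T) :
    Fam p (fun x : ((C.prod E).quot (N.prod M)).ι × ((G × H) ⧸ (N.prod M)) => ((C.prod E).quot (N.prod M)).deg x.1)
      (((C.prod E).quot (N.prod M)).mat ℤ) (n + m + 1) (S × T) :=
  (X.tor Y).reindex (thE C E N M) _ _ (fun _ => rfl) (mat_prod C E N M)

theorem finite_prod_quot [Finite (G ⧸ N)] [Finite (H ⧸ M)] : Finite ((G × H) ⧸ (N.prod M)) :=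
  Finite.of_injective _ (qe_inj N M)

end prod

/-- **P3T: torsion of a triple product.** -/
theorem p3t : P3T := by
  classical
  intro G _ C N _ _ p _ d
  have : Finite ((G × G) ⧸ (N.prod N)) := finite_prod_quot N N
  let _ : Fintype ((G × G) ⧸ (N.prod N)) := Fintype.ofFinite _
  have : Finite ((G × (G × G)) ⧸ (N.prod (N.prod N))) := finite_prod_quot N (N.prod N)
  let _ : Fintype ((G × (G × G)) ⧸ (N.prod (N.prod N))) := Fintype.ofFinite _
  obtain ⟨S, hS, hS', X, h⟩ := tp_pairs (C.quot N) p d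
  have h2 := famProd C (C.prod C) N (N.prod N) X.fam (famTor C C N N X X)
  have h3 := fam_le _ p _ h2
  rw [show d + (d + d + 1) = 3 * d + 1 by ring] at h3
  refine le_trans ?_ h3
  refine Nat.pow_le_pow_right (Fact.out : p.Prime).pos ?_
  rw [Fintype.card_prod, Fintype.card_prod]
  calc (C.quot N).tp p d ^ 3 ≤ Fintype.card S ^ 3 := Nat.pow_le_pow_left h 3
    _ = _ := by ring

/-- **P3S: torsion of a square.** -/
theorem p3s : P3S := by
  classical
  intro G _ C N _ _ p _ d
  have : Finite ((G × G) ⧸ (N.prod N)) := finite_prod_quot N N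
  let _ : Fintype ((G × G) ⧸ (N.prod N)) := Fintype.ofFinite _
  obtain ⟨S, hS, hS', X, h⟩ := tp_pairs (C.quot N) p d
  have hc : (C.quot N).tp p d ^ 2 ≤ Fintype.card (S × S) := by
    rw [Fintype.card_prod]
    calc (C.quot N).tp p d ^ 2 ≤ Fintype.card S ^ 2 := Nat.pow_le_pow_left h 2
      _ = _ := by ring
  constructor
  · have h3 := fam_le _ p _ (famProd C C N N X.fam X.fam)
    rw [show d + d = 2 * d by ring] at h3
    exact (Nat.pow_le_pow_right (Fact.out : p.Prime).pos hc).trans h3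
  · have h3 := fam_le _ p _ (famTor C C N N X X)
    rw [show d + d + 1 = 2 * d + 1 by ring] at h3
    exact (Nat.pow_le_pow_right (Fact.out : p.Prime).pos hc).trans h3

end Pool.Agent.V8H42.LT
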